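import Pool.Agent.H18.GW.Targets
import Pool.Agent.H27.HG.NOE

/-!
Row FN of the board gwd_modules (MP_0b603e_al): finitely generated nilpotent groups of finite
exponent are finite.
-/

set_option autoImplicit false

open scoped commutatorElement

namespace Pool.Agent.H1.GW

open Pool.Agent.H18.GW

theorem finite_ext {G : Type} [Group G] (K : Subgroup G) [K.Normal] (h1 : Finite K)
    (h2 : Finite (G ⧸ K)) : Finite G := by
  have e : G ≃ (G ⧸ K) × K := Subgroup.groupEquivQuotientProdSubgroup
  exact Finite.of_equiv _ e.symm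

theorem fn_aux (n : ℕ) (e : ℕ) (he : 0 < e) : ∀ (Q : Type) [Group Q], Group.FG Q →
    (⊤ : Subgroup Q).lowerCentralSeries n = ⊥ → (∀ x : Q, x ^ e = 1) → Finite Q := by
  induction n with
  | zero =>
    intro Q _ _ h _
    have h1 : (⊤ : Subgroup Q) = ⊥ := h
    have h2 : Subsingleton Q := by
      refine ⟨fun a b => ?_⟩
      have ha : a ∈ (⊥ : Subgroup Q) := h1 ▸ Subgroup.mem_top a
      have hb : b ∈ (⊥ : Subgroup Q) := h1 ▸ Subgroup.mem_top b
      rw [Subgroup.mem_bot.1 ha, Subgroup.mem_bot.1 hb]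
    exact Finite.of_subsingleton
  | succ n ih =>
    intro Q _ hfg h hx
    have hnoe := Pool.Agent.H27.HG.noe_aux (n + 1) Q h
    obtain ⟨K, hK⟩ : ∃ K, K = (⊤ : Subgroup Q).lowerCentralSeries n := ⟨_, rfl⟩
    have hKn : K.Normal := by rw [hK]; infer_instance
    have hc : ∀ k ∈ K, ∀ g : Q, k * g = g * k := by
      intro k hk g
      have h1 : ⁅k, g⁆ ∈ (⊤ : Subgroup Q).lowerCentralSeries (n + 1) :=
        Subgroup.commutator_mem_commutator (hK ▸ hk) (Subgroup.mem_top g)
      rw [h, Subgroup.mem_bot] at h1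
      exact commutatorElement_eq_one_iff_mul_comm.1 h1
    have hq : (⊤ : Subgroup (Q ⧸ K)).lowerCentralSeries n = ⊥ := by
      have h1 := Subgroup.map_lowerCentralSeries (⊤ : Subgroup Q) (QuotientGroup.mk' K) n
      rw [Subgroup.map_top_of_surjective _ (QuotientGroup.mk'_surjective K)] at h1
      rw [← h1, ← hK, QuotientGroup.map_mk'_self]
    have hfq : Finite (Q ⧸ K) := by
      refine ih (Q ⧸ K) inferInstance hq fun x => ?_
      obtain ⟨y, rfl⟩ := QuotientGroup.mk'_surjective K x
      rw [← map_pow, hx, map_one]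
    have hfK : Finite K := by
      have hKfg : Group.FG K := (Group.fg_iff_subgroup_fg K).2 (hnoe K)
      let _ : CommGroup K := { (inferInstance : Group K) with
        mul_comm := fun a b => Subtype.ext (hc a.1 a.2 b.1) }
      refine CommGroup.finite_of_fg_isMulTorsion K ?_
      intro x
      rw [isOfFinOrder_iff_pow_eq_one]
      exact ⟨e, he, Subtype.ext (hx x.1)⟩
    exact finite_ext K hfK hfq

/-- (FN) finitely generated nilpotent groups of finite exponent are finite -/
theorem pf_FN : T_FN := by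
  intro G _ hfg hnil e he hx
  obtain ⟨n, hn⟩ := Subgroup.nilpotent_iff_lowerCentralSeries.1 hnil
  exact fn_aux n e he G hfg hn hx

end Pool.Agent.H1.GW
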